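import Pool.Agent.D0H46.CI.Ctw
import Pool.Agent.D0H46.CI.Excw
import Pool.Agent.D0H46.CI.Stm4
import Pool.Agent.D0H10.CI.Kz
import Pool.Agent.D0H28.CI.Rare
import Pool.Agent.D0H52.CI.Snf
import Pool.Agent.D0H52.CI.Dc
import Pool.Agent.D0H49.CI.Bx
import Pool.Agent.D0H49.CI.Ch
import Pool.Agent.D0H49.CI.Sm
import Pool.Agent.D0H49.CI.Apw
import Pool.Agent.D0H49.CI.Allw
import Pool.Agent.D0H49.CI.Upw
import Pool.Agent.D0H49.CI.Low
import Pool.Agent.D0H49.CI.Low2
import Pool.Agent.D0H92.CI.Hc
import Pool.Agent.D0H92.CI.Tail
import Pool.Agent.D0H92.CI.C2l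
import Pool.Agent.D0H92.CI.Crd
import Pool.Agent.D0H92.CI.Gs
import Pool.Agent.D0H9.CI.Bad
import Pool.Agent.D0H9.CI.Locf
import Pool.Agent.D0H9.CI.Loci
import Pool.Agent.D0H35.CI.Extw
import Pool.Agent.D0H22.CI.Pos

/-!
# Least rational points and weak approximation for 100% of the everywhere locally soluble Fano
# complete intersections of codimension at least two over `F_q(t)` (helper46; modules by helper9,
# helper10, helper22, helper28, helper35, helper49, helper52 and helper92)

Let `F` be a finite field (of any characteristic), `r ≥ 2` and `d_1, …, d_r ≥ 2` with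
`D = d_1 + … + d_r ≤ n`. We consider the systems of `r` forms `f_1, …, f_r` of the degrees `d_1, …, d_r` in the
`n + 1` variables `x_0, …, x_n` with coefficients in `F[t]` of degree `< A`, for `A → ∞`. (If the variety
`f_1 = … = f_r = 0` is smooth of dimension `n - r` then it is a Fano variety of index `n + 1 - D`, for
instance a del Pezzo surface of degree four: `r = 2`, `n = 4`, `d_1 = d_2 = 2`.)

Theorem:

* 100% of the systems which have common nontrivial zeros in all the completions of `F(t)` have a
common nonzero zero in `F[t]^(n+1)`, even one with `(n + 1 - D) deg x_i ≤ r A + O(1)`; and the zeros of this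
size approximate all the families of local zeros at the places of any given finite set and at infinity, at
any given precision. So 100% of these varieties satisfy the Hasse principle, and weak approximation at any
given finite set of places and at any given precision, with an effective height.

* If `b ≤ A` and `(n + 1 - D) b + C ≤ r A` then only a small proportion of these systems has a nonzero
zero of degree `≤ b`. For `r = 2` this holds without the condition `b ≤ A`; so for `r = 2`, in particular
for del Pezzo surfaces of degree four, the least degree of a rational point is `2 A / (n + 1 - D) + O(1)`.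

The case `r = 1` (hypersurfaces) is `MP_d4938b_nt.RandomFanoFunctionField` (a starting file, whose library
`Y716.FF` we use) and `MP_d4938b_nt.LeastPointsWeakApproximation`. Over the rational numbers the starting files
`MP_12adaf_nt.RandomCompleteIntersections`, `MP_03ef3d_ag.RandomCompleteIntersections` contain weak approximation and
the Hasse principle for 100% of the Fano complete intersections, without bounds for the height. The second moment of the number of the zeros
`x` of degree `B` in a residue class and with given leading coefficients is computed for the systems in a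
residue class. For `r ≥ 2` there are new difficulties.

* The values of `f_1, …, f_r` at test vectors `x ≡ x_0` modulo `S` are divisible by a high power of the primes,
while the Jacobian matrix at `x_0` may be divisible by a large factor. We use the Smith normal form of
the Jacobian matrix: outside a small set of systems (which are nearly singular at an approximate zero) it
has a right inverse up to a factor `J` dividing `S`. The test vectors are the `x ≡ x_0` modulo `S` with
`f_a(x) ≡ 0` modulo `S J` (a set that has no simple description) and a version of Hensel's lemma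
compares the numbers of such vectors in residue classes.

* If the degree `B` is as large as `r A` (for the index one) the pairs `x`, `x'` of test vectors are not
any more in general position: for quadratic forms in `2 r + 1` variables (such as in the case of the del
Pezzo surfaces of degree four) the lattice `x^⊥` has generators of degree about `B / n = A / 2`, and the
values `(f(x), f(x'))` need not be equidistributed. We show that this fails only if there is a symmetric
matrix `Z` over `F[t]` such that `l^T Z l'` is small but not always zero for `l` in `x^⊥` and `l'` in `x'^⊥` of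
degree about `A / 2`, and that such pairs are rare.

* For the lower bound with `b > A` one has to bound the number of the systems with a zero `x` which is
contained in a lattice of small height; the values `f(x)` at such vectors are not equidistributed. We use
that the dimension of the space of the `f(x)`, `f` with coefficients of degree `< m`, is a concave function
of `m`.
-/

set_option autoImplicit false

namespace Pool.Agent.Results.MP_d4938b_nt.CompleteIntersectionsWA

open Polynomial IsDedekindDomain

/-- The systems `f` of `r` forms, `f a` of degree `d a`, in `n + 1` variables over `F[t]` all of whose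
coefficients have degree less than `A`. -/
def Systems (F : Type*) [Field F] (n : ℕ) {r : ℕ} (d : Fin r → ℕ) (A : ℕ) :
    Set (Fin r → MvPolynomial (Fin (n + 1)) F[X]) :=
  {f | ∀ a, (f a).IsHomogeneous (d a) ∧ ∀ m, ((f a).coeff m).degree < A}

/-- The embedding of `F[t]` in the completion `F((u))`, `u = 1 / t`, of `F(t)` at infinity:
`t` goes to the inverse of `u`. -/
noncomputable def toInfty (F : Type*) [Field F] : F[X] →+* LaurentSeries F :=
  (Polynomial.aeval (HahnSeries.single (-1 : ℤ) (1 : F)) : F[X] →ₐ[F] LaurentSeries F).toRingHom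

/-- The forms `f a` have a common nontrivial zero over the completion of `F(t)` at every place: at every
maximal ideal `v` of `F[t]`, and at infinity. -/
def HasLocalPoints {F : Type*} [Field F] {n r : ℕ}
    (f : Fin r → MvPolynomial (Fin (n + 1)) F[X]) : Prop :=
  (∀ v : HeightOneSpectrum F[X],
    ∃ x : Fin (n + 1) → v.adicCompletion (RatFunc F), x ≠ 0 ∧
      ∀ a, MvPolynomial.aeval x (f a) = 0) ∧
  ∃ x : Fin (n + 1) → LaurentSeries F, x ≠ 0 ∧
    ∀ a, MvPolynomial.eval₂ (toInfty F) x (f a) = 0

/-- The forms `f a` have a common nonzero zero in `F[t]^(n+1)` whose coordinates have degree at most `b`. -/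
def ZeroUpTo {F : Type*} [Field F] {n r : ℕ} (b : ℕ)
    (f : Fin r → MvPolynomial (Fin (n + 1)) F[X]) : Prop :=
  ∃ x : Fin (n + 1) → F[X], x ≠ 0 ∧ (∀ i, (x i).natDegree ≤ b) ∧
    ∀ a, MvPolynomial.eval x (f a) = 0

/-- The vector `x` over `F[t]` is close, to the precision `E`, to the projective point with the
coordinates `y` in the completion at `v`: some multiple `c y` has coordinates in the valuation ring,
one of them being `1`, and is congruent to `x` modulo the `E`-th power of the maximal ideal. -/
def CloseAt {F : Type*} [Field F] {n : ℕ} (v : HeightOneSpectrum F[X]) (E : ℕ)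
    (y : Fin (n + 1) → v.adicCompletion (RatFunc F)) (x : Fin (n + 1) → F[X]) : Prop :=
  ∃ c : v.adicCompletion (RatFunc F), (∀ i, Valued.v (c * y i) ≤ 1) ∧ (∃ i, c * y i = 1) ∧
    ∀ i, Valued.v (algebraMap F[X] (v.adicCompletion (RatFunc F)) (x i) - c * y i) ≤
      WithZero.exp (-(E : ℤ))

/-- The vector `x` over `F[t]` is close, to the precision `E`, to the projective point with the
coordinates `y` in the completion at infinity: if `b` is the maximum of the degrees of the coordinates
of `x` (so that `b` is the order of the pole of `x` at infinity), some multiple `c y` satisfies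
`x ≡ c y` modulo `u ^ (E - b)`. -/
def CloseAtInfty {F : Type*} [Field F] {n : ℕ} (E : ℕ) (y : Fin (n + 1) → LaurentSeries F)
    (x : Fin (n + 1) → F[X]) : Prop :=
  ∃ b : ℕ, (∀ i, (x i).natDegree ≤ b) ∧ (∃ i, (x i).degree = b) ∧ ∃ c : LaurentSeries F,
    ∀ i, ∀ m : ℤ, m < E - b → (toInfty F (x i) - c * y i).coeff m = 0

/-- For all choices of a nontrivial common zero of the forms `f a` over the completion at each place of the
finite set `T` and at infinity there is a common nonzero zero `x` in `F[t]^(n+1)` with `k * deg (x_i) ≤ M` for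
all `i` which is close to all of these local zeros, to the precision `E`. -/
def Approximable {F : Type*} [Field F] {n r : ℕ} (k M : ℕ) (T : Finset (HeightOneSpectrum F[X]))
    (E : ℕ) (f : Fin r → MvPolynomial (Fin (n + 1)) F[X]) : Prop :=
  ∀ y : (v : HeightOneSpectrum F[X]) → Fin (n + 1) → v.adicCompletion (RatFunc F),
    (∀ v ∈ T, y v ≠ 0 ∧ ∀ a, MvPolynomial.aeval (y v) (f a) = 0) →
    ∀ y' : Fin (n + 1) → LaurentSeries F, y' ≠ 0 →
    (∀ a, MvPolynomial.eval₂ (toInfty F) y' (f a) = 0) →
    ∃ x : Fin (n + 1) → F[X], x ≠ 0 ∧ (∀ a, MvPolynomial.eval x (f a) = 0) ∧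
      (∀ i, k * (x i).natDegree ≤ M) ∧ (∀ v ∈ T, CloseAt v E (y v) x) ∧ CloseAtInfty E y' x

/-- **Least points and weak approximation for 100% of the Fano complete intersections over `F_q(t)`.**

Let `F` be a finite field, `r ≥ 2`, let `d_1, …, d_r ≥ 2` and `D = d_1 + … + d_r ≤ n`.

1. For every finite set `T` of finite places, every precision `E` and every `ε > 0` there is a `C` such
that for all large `A`, for all but a proportion of at most `ε` of the everywhere locally soluble systems
`f` of forms of the degrees `d_1, …, d_r` in `n + 1` variables with coefficients of degree `< A`, all local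
zeros of `f` at the places of `T` and at infinity are simultaneously approximated, to the precision `E`,
by a zero `x ∈ F[t]^(n+1)` of degree at most `(r A + C) / (n + 1 - D)`.

2. For every `ε > 0` there is a `C` such that, if `(n + 1 - D) b + C ≤ r A` and (`b ≤ A` or `r = 2`), at most a
proportion of `ε` of these systems has a nonzero zero of degree at most `b`. -/
theorem result (F : Type*) [Field F] [Finite F] (r n : ℕ) (d : Fin r → ℕ) (hr : 2 ≤ r)
    (hd : ∀ a, 2 ≤ d a) (hsum : ∑ a, d a ≤ n) :
    (∀ (T : Finset (HeightOneSpectrum F[X])) (E : ℕ) (ε : ℝ), 0 < ε →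
      ∃ C : ℕ, ∀ᶠ A : ℕ in Filter.atTop,
        (({f ∈ Systems F n d A | HasLocalPoints f ∧
            ¬ Approximable (n + 1 - ∑ a, d a) (r * A + C) T E f} : Set _).ncard : ℝ) ≤
          ε * (({f ∈ Systems F n d A | HasLocalPoints f} : Set _).ncard : ℝ)) ∧
    (∀ ε : ℝ, 0 < ε → ∃ C : ℕ, ∀ A b : ℕ, (n + 1 - ∑ a, d a) * b + C ≤ r * A →
      (b ≤ A ∨ r = 2) →
        (({f ∈ Systems F n d A | HasLocalPoints f ∧ ZeroUpTo b f} : Set _).ncard : ℝ) ≤
          ε * (({f ∈ Systems F n d A | HasLocalPoints f} : Set _).ncard : ℝ)) := by
  obtain ⟨e, rfl⟩ : ∃ e : Fin r → ℕ, d = fun a => e a + 2 :=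
    ⟨fun a => d a - 2, funext fun a => (Nat.sub_add_cancel (hd a)).symm⟩
  have : Nonempty (Fin r) := ⟨⟨0, by omega⟩⟩
  have hsum' : ∑ b, (e b + 2) ≤ n := hsum
  obtain ⟨i, hi⟩ : ∃ i, i = n + 1 - ∑ b, (e b + 2) := ⟨_, rfl⟩
  have hi1 : 1 ≤ i := by omega
  have hcard : (∑ b, (e b + 2)) + i = Fintype.card (Fin (n + 1)) := by
    rw [Fintype.card_fin]; omega
  have h2r : 2 * r ≤ ∑ b, (e b + 2) := by
    have := Pool.Agent.D0H46.CI.sum_two_le e
    rwa [Fintype.card_fin] at this
  have hrk : Fintype.card (Fin r) + 3 ≤ Fintype.card (Fin (n + 1)) := by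
    rw [Fintype.card_fin, Fintype.card_fin]; omega
  have hSM := Pool.Agent.D0H49.CI.t_SM
    (Pool.Agent.D0H92.CI.t_GS Pool.Agent.D0H92.CI.t_HC Pool.Agent.D0H52.CI.t_DC
      Pool.Agent.D0H92.CI.t_C2L)
    Pool.Agent.D0H92.CI.t_TAIL Pool.Agent.D0H10.CI.t_KZ Pool.Agent.D0H28.CI.t_RARE
    Pool.Agent.D0H92.CI.t_C2L Pool.Agent.D0H92.CI.t_CRD
  have hCH := Pool.Agent.D0H49.CI.t_CH hSM
  have hBX := Pool.Agent.D0H49.CI.t_BX Pool.Agent.D0H52.CI.t_DC
  have hCTW := Pool.Agent.D0H46.CI.t_CTW hCH hBX
  have hPOS := Pool.Agent.D0H22.CI.t_POS (Pool.Agent.D0H46.CI.t_CT hCH hBX)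
  have hALL := Pool.Agent.D0H49.CI.t_ALLW (Pool.Agent.D0H46.CI.t_EXCW hCTW
    (Pool.Agent.D0H35.CI.t_EXTW Pool.Agent.D0H52.CI.t_SNF) Pool.Agent.D0H9.CI.t_BAD)
  have hUP := Pool.Agent.D0H49.CI.t_UPW hALL Pool.Agent.D0H49.CI.t_APW hPOS
    Pool.Agent.D0H9.CI.t_LOCF Pool.Agent.D0H9.CI.t_LOCI
  have hLOW := Pool.Agent.D0H49.CI.t_LOW hPOS
  refine ⟨fun T E ε hε => ?_, fun ε hε => ?_⟩
  · obtain ⟨C, hC⟩ := hUP F (Fin (n + 1)) (Fin r) e i hi1 hcard hrk T E ε hε
    rw [Fintype.card_fin, hi] at hC
    exact ⟨C, hC⟩
  · obtain ⟨C, hC⟩ := hLOW F (Fin (n + 1)) (Fin r) e i hi1 hcard hrk ε hε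
    rw [Fintype.card_fin, hi] at hC
    by_cases h2 : r = 2
    · obtain ⟨C', hC'⟩ := Pool.Agent.D0H49.CI.t_LOW2 Pool.Agent.D0H49.CI.t_VDIM hLOW hPOS
        F (Fin (n + 1)) (Fin r) e i hi1 hcard hrk (by rw [Fintype.card_fin, h2]) ε hε
      rw [hi] at hC'
      exact ⟨C', fun A b hA _ => hC' A b (hA.trans (le_of_eq (by rw [h2])))⟩
    · exact ⟨C, fun A b hA hb => hC A b (hb.resolve_right h2) hA⟩

end Pool.Agent.Results.MP_d4938b_nt.CompleteIntersectionsWA
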