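import Pool.Agent.D0H46.CW.Cln
import Pool.Agent.D0H46.CW.Clf
import Pool.Agent.D0H65.CY.PosF
import Pool.Agent.D0H75.CW.Extw
import Pool.Agent.D0H8.CW.Excw
import Pool.Agent.D0H49.CW.Allw
import Pool.Agent.D0H49.CW.Upw
import Pool.Agent.D0H49.CW.Low
import Pool.Agent.D0H56.CW.Apf
import Pool.Agent.D0H56.CW.Api

/-!
# Least rational points and weak approximation for 100% of the everywhere locally soluble Fano
# cyclic covers of `P^n` over `F_q(t)`, `n ≥ 3` (helper46; modules by helper8, helper49, helper56,
# helper65 and helper75)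

Let `F` be a finite field, `m ≥ 2` an integer prime to the characteristic, `κ ≥ 1` and `n ≥ 3` with
`κ (m - 1) ≤ n`. For a form `f` of degree `m κ` in `x_0, …, x_n` over `F(t)` the equation `z ^ m = f(x)`
defines a hypersurface of degree `m κ` in the weighted projective space `P(1, …, 1, κ)`; it is the cyclic
cover of degree `m` of `P^n` branched along `f = 0`. It is Fano if and only if it satisfies
`κ (m - 1) ≤ n`. This includes the quartic and the sextic double solids `z ^ 2 = f(x_0, …, x_3)`, the
double covers of `P^n` branched along hypersurfaces of any even degree `≤ 2 n`, and the cyclic cubic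
hypersurfaces `z ^ 3 = f(x)`.

Theorem: let `k = m (n + 1 - κ (m - 1))` and consider the forms `f` with coefficients of degree `< A`,
`A → ∞`, for which the equation has solutions with `x ≠ 0` in all completions of `F(t)`.

* For 100% of them there is a solution `(x, z)` in polynomials with `x ≠ 0` and
`k deg x_i ≤ (m - 1) A + O(1)`; and the solutions of this size approximate all the families of local
solutions at the places of any given finite set and at infinity, at any given precision. So 100% of these
varieties satisfy the Hasse principle, and weak approximation at any given finite set of places and at any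
given precision, with an effective height.

* For 100% of them the least degree of `x` in a solution is `(m - 1) A / k + O(1)`.

Proof. A second moment argument for the pairs `(x, z)`, on the basis of the lattice point counts of the
library `Y716.FF` (made for the hypersurfaces `f(x) = 0`). The classes of forms are those for which
`f` takes at a given vector `x` a given nonzero `m`-th power as value modulo a high power of the
product of the small primes, and analogously at infinity; `f` need not have a zero there. The number of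
pairs `(x, z)` in boxes of degrees `B` and `(N - ν) / m + κ B` which solve `z ^ m = f(x)` has mean
`q ^ ((n + 1 - κ (m - 1)) B - (1 - 1 / m) N + O(1))` over the forms of a class, and its variance is a small
multiple of the square of the mean: the two points `x, x'` of a pair impose independent conditions on
`f` up to the gcd and the degree of their minors, and for given `f`, `x` the admissible `z` are determined
modulo powers of the small primes and in the highest coefficients by the values of `z` modulo these
primes, because `m` is prime to the characteristic. Given local solutions are moved by one Newton step to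
points near them at which the value is a nonzero `m`-th power, unless `f` has a point which is singular
modulo a high power of a small prime; such forms are rare. All the targets at a fixed precision are treated
at the same time.
-/

set_option autoImplicit false

namespace Pool.Agent.Results.MP_d4938b_nt.CyclicCoversWA

open Polynomial IsDedekindDomain

/-- The forms of degree `d` in `n + 1` variables over `F[t]` all of whose coefficients have degree less
than `A`. -/
def Forms (F : Type*) [Field F] (n d A : ℕ) : Set (MvPolynomial (Fin (n + 1)) F[X]) :=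
  {f | f.IsHomogeneous d ∧ ∀ c, (f.coeff c).degree < A}

/-- The embedding of `F[t]` in the completion `F((u))`, `u = 1 / t`, of `F(t)` at infinity:
`t` goes to the inverse of `u`. -/
noncomputable def toInfty (F : Type*) [Field F] : F[X] →+* LaurentSeries F :=
  (Polynomial.aeval (HahnSeries.single (-1 : ℤ) (1 : F)) : F[X] →ₐ[F] LaurentSeries F).toRingHom

/-- `(y, w)` is a solution of `w ^ m = f(y)` with `y ≠ 0` over the completion of `F(t)` at `v`. -/
def SolAt {F : Type*} [Field F] {n : ℕ} (m : ℕ) (f : MvPolynomial (Fin (n + 1)) F[X])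
    (v : HeightOneSpectrum F[X]) (y : Fin (n + 1) → v.adicCompletion (RatFunc F))
    (w : v.adicCompletion (RatFunc F)) : Prop :=
  y ≠ 0 ∧ w ^ m = MvPolynomial.aeval y f

/-- `(y, w)` is a solution of `w ^ m = f(y)` with `y ≠ 0` over the completion of `F(t)` at infinity. -/
def SolAtInfty {F : Type*} [Field F] {n : ℕ} (m : ℕ) (f : MvPolynomial (Fin (n + 1)) F[X])
    (y : Fin (n + 1) → LaurentSeries F) (w : LaurentSeries F) : Prop :=
  y ≠ 0 ∧ w ^ m = MvPolynomial.eval₂ (toInfty F) y f

/-- The forms `f` of degree `m κ` in `n + 1` variables with coefficients in `F[t]` of degree less than `A`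
such that `z ^ m = f(x)` has a solution with `x ≠ 0` over the completion of `F(t)` at every place: at every
maximal ideal `v` of `F[t]`, and at infinity. -/
def ELS (F : Type*) [Field F] (n m κ A : ℕ) : Set (MvPolynomial (Fin (n + 1)) F[X]) :=
  {f ∈ Forms F n (m * κ) A | (∀ v, ∃ y w, SolAt m f v y w) ∧ ∃ y w, SolAtInfty m f y w}

/-- The equation `z ^ m = f(x)` has a solution in polynomials with `x ≠ 0` and `deg x_i ≤ b` for all `i`. -/
def SolutionUpTo {F : Type*} [Field F] {n : ℕ} (m b : ℕ)
    (f : MvPolynomial (Fin (n + 1)) F[X]) : Prop :=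
  ∃ (x : Fin (n + 1) → F[X]) (z : F[X]), x ≠ 0 ∧ (∀ i, (x i).natDegree ≤ b) ∧
    z ^ m = MvPolynomial.eval x f

/-- `a ≡ b` modulo the `E`-th power of the maximal ideal of the valuation ring of the completion at `v`. -/
def Near {F : Type*} [Field F] (v : HeightOneSpectrum F[X]) (E : ℕ) (a : F[X])
    (b : v.adicCompletion (RatFunc F)) : Prop :=
  Valued.v (algebraMap F[X] (v.adicCompletion (RatFunc F)) a - b) ≤ WithZero.exp (-(E : ℤ))

/-- The point `(x, z)` over `F[t]` is close, to the precision `E`, to the point with the weighted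
homogeneous coordinates `(y, w)` over the completion at `v` (`w` has the weight `κ`): for some `c` the vector
`c y` has coordinates in the valuation ring, one of them being `1`, and `x ≡ c y`, `z ≡ c ^ κ w` modulo the
`E`-th power of the maximal ideal. -/
def CloseAt {F : Type*} [Field F] {n : ℕ} (κ : ℕ) (v : HeightOneSpectrum F[X]) (E : ℕ)
    (y : Fin (n + 1) → v.adicCompletion (RatFunc F)) (w : v.adicCompletion (RatFunc F))
    (x : Fin (n + 1) → F[X]) (z : F[X]) : Prop :=
  ∃ c : v.adicCompletion (RatFunc F), (∀ i, Valued.v (c * y i) ≤ 1) ∧ (∃ i, c * y i = 1) ∧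
    (∀ i, Near v E (x i) (c * y i)) ∧ Near v E z (c ^ κ * w)

/-- `a ≡ b` modulo `u ^ k` over the completion at infinity. -/
def NearInfty {F : Type*} [Field F] (k : ℤ) (a : F[X]) (b : LaurentSeries F) : Prop :=
  ∀ j : ℤ, j < k → (toInfty F a - b).coeff j = 0

/-- The point `(x, z)` over `F[t]` is close, to the precision `E`, to the point with the weighted
homogeneous coordinates `(y, w)` over the completion at infinity: if `b` is the maximum of the degrees of
the coordinates of `x`, then for some `c` we have `x ≡ c y` modulo `u ^ (E - b)` and `z ≡ c ^ κ w` modulo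
`u ^ (E - a - κ b)`. (So `x` is compared with `t ^ b` and `z` with `t ^ (a + κ b)`; for `z ^ m = f(x)`, where `f`
has coefficients of degree `≤ N` and `a` is the integral part of `N / m`, `deg z` is at most `a + κ b`.) -/
def CloseAtInfty {F : Type*} [Field F] {n : ℕ} (κ a E : ℕ) (y : Fin (n + 1) → LaurentSeries F)
    (w : LaurentSeries F) (x : Fin (n + 1) → F[X]) (z : F[X]) : Prop :=
  ∃ b : ℕ, (∀ i, (x i).natDegree ≤ b) ∧ (∃ i, (x i).degree = b) ∧ ∃ c : LaurentSeries F,
    (∀ i, NearInfty (E - b) (x i) (c * y i)) ∧ NearInfty (E - a - κ * b) z (c ^ κ * w)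

/-- For all choices of a solution `(y v, w v)` over the completion at each place `v` of the finite set `T`
and of a solution `(y', w')` over the completion at infinity there is a solution `(x, z)`, `x ≠ 0`, of
`z ^ m = f(x)` in polynomials with `k * deg (x_i) ≤ M` for all `i` which is close to all of these local
solutions, to the precision `E`. -/
def Approximable {F : Type*} [Field F] {n : ℕ} (m κ k M a : ℕ) (T : Finset (HeightOneSpectrum F[X]))
    (E : ℕ) (f : MvPolynomial (Fin (n + 1)) F[X]) : Prop :=
  ∀ (y : (v : HeightOneSpectrum F[X]) → Fin (n + 1) → v.adicCompletion (RatFunc F))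
    (w : (v : HeightOneSpectrum F[X]) → v.adicCompletion (RatFunc F)),
    (∀ v ∈ T, SolAt m f v (y v) (w v)) → ∀ y' w', SolAtInfty m f y' w' →
    ∃ (x : Fin (n + 1) → F[X]) (z : F[X]), x ≠ 0 ∧ z ^ m = MvPolynomial.eval x f ∧
      (∀ i, k * (x i).natDegree ≤ M) ∧ (∀ v ∈ T, CloseAt κ v E (y v) (w v) x z) ∧
      CloseAtInfty κ a E y' w' x z

open Pool.Agent.D0H46.CW in
/-- **Least points and weak approximation for 100% of the Fano cyclic covers of `P^n` over `F_q(t)`, `n ≥ 3`.**

Let `F` be a finite field, `m ≥ 2` with `m ≠ 0` in `F`, `κ ≥ 1`, `n ≥ 3`, `κ (m - 1) ≤ n`, and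
`k = m (n + 1 - κ (m - 1))`.

1. For every finite set `T` of finite places, every precision `E` and every `ε > 0` there is a `C` such
that for all large `A`, for all but a proportion of at most `ε` of the forms `f` of degree `m κ` in `n + 1`
variables with coefficients of degree `< A` for which `z ^ m = f(x)` is everywhere locally soluble, all local
solutions at the places of `T` and at infinity are simultaneously approximated, to the precision `E`, by a
solution `(x, z)` in polynomials with `deg x ≤ ((m - 1) A + C) / k`.

2. For every `ε > 0` there is a `C` such that, if `k b + C ≤ (m - 1) A`, at most a proportion of `ε` of these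
forms `f` has a solution `(x, z)`, `x ≠ 0`, `deg x ≤ b`. -/
theorem result (F : Type*) [Field F] [Finite F] (m κ n : ℕ) (hm : 2 ≤ m) (hm0 : (m : F) ≠ 0)
    (hκ : 1 ≤ κ) (hn : 3 ≤ n) (hFano : κ * (m - 1) ≤ n) :
    (∀ (T : Finset (HeightOneSpectrum F[X])) (E : ℕ) (ε : ℝ), 0 < ε →
      ∃ C : ℕ, ∀ᶠ A : ℕ in Filter.atTop,
        ({f ∈ ELS F n m κ A | ¬ Approximable m κ (m * (n + 1 - κ * (m - 1))) ((m - 1) * A + C)
          ((A - 1) / m) T E f}.ncard : ℝ) ≤ ε * (ELS F n m κ A).ncard) ∧
    (∀ ε : ℝ, 0 < ε → ∃ C : ℕ, ∀ A b : ℕ, m * (n + 1 - κ * (m - 1)) * b + C ≤ (m - 1) * A →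
        ({f ∈ ELS F n m κ A | SolutionUpTo m b f}.ncard : ℝ) ≤ ε * (ELS F n m κ A).ncard) := by
  obtain ⟨e, he⟩ : ∃ e, e + 2 = m * κ := by
    have h2 : 2 * 1 ≤ m * κ := Nat.mul_le_mul hm hκ
    exact ⟨m * κ - 2, by omega⟩
  have hcard : Fintype.card (Fin (n + 1)) = n + 1 := Fintype.card_fin _
  obtain ⟨j, hj⟩ : ∃ j, j = m * (n + 1 - κ * (m - 1)) := ⟨_, rfl⟩
  have hCL : CLW F (Fin (n + 1)) e m j := t_CLN F (Fin (n + 1)) e m κ j he hm hm0
    (by rw [hcard]; omega) (by rw [hcard]; omega) (by rw [hcard]; exact hj)
  have hpos : ∃ a b : ℕ, Pool.Agent.D0H46.CY.POSf F (Fin (n + 1)) a b e m :=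
    ⟨m, j, Pool.Agent.D0H65.CY.t_POSF F (Fin (n + 1)) m j e m hm (by rw [hcard]; omega)
      (t_CLF F (Fin (n + 1)) e m j hm hCL)⟩
  have hALL := Pool.Agent.D0H49.CW.t_ALLW
    (Pool.Agent.D0H8.CW.t_EXCW Pool.Agent.D0H75.CW.t_EXTW)
  have hELS : ∀ A, ELS F n m κ A = {f | Pool.Agent.Y716.FF.IsForm (e + 2) A f ∧
      Pool.Agent.D0H46.CY.ELSC m f} := fun A => by rw [he]; rfl
  have hsub : ∀ (A : ℕ) (Q : MvPolynomial (Fin (n + 1)) F[X] → Prop), {f ∈ ELS F n m κ A | Q f} =
      {f | Pool.Agent.Y716.FF.IsForm (e + 2) A f ∧ (Pool.Agent.D0H46.CY.ELSC m f ∧ Q f)} := by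
    intro A Q
    rw [hELS]
    ext f
    exact and_assoc
  have hiff : ∀ (k M a : ℕ) (T : Finset (HeightOneSpectrum F[X])) (E : ℕ)
      (f : MvPolynomial (Fin (n + 1)) F[X]),
      Approximable m κ k M a T E f ↔ ApproxC m κ k M a T E f := fun k M a T E f =>
    ⟨fun h y w hy y' w' h1 h2 => h y w hy y' w' ⟨h1, h2⟩,
      fun h y w hy y' w' hs => h y w hy y' w' hs.1 hs.2⟩
  rw [← hj]
  refine ⟨fun T E ε hε => ?_, fun ε hε => ?_⟩
  · obtain ⟨C, hC⟩ := Pool.Agent.D0H49.CW.t_UPW hALL Pool.Agent.D0H56.CW.t_APF
      Pool.Agent.D0H56.CW.t_API F (Fin (n + 1)) e m κ j he hm hCL hpos T E ε hε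
    refine ⟨C, hC.mono fun A hA => ?_⟩
    rw [hsub, hELS]
    simp only [hiff]
    exact hA
  · obtain ⟨C, hC⟩ := Pool.Agent.D0H49.CW.t_LOW F (Fin (n + 1)) e m κ j he hm
      (by rw [hcard]; omega) (by rw [hcard]; exact hj) hpos ε hε
    refine ⟨C, fun A b hb => ?_⟩
    rw [hsub, hELS]
    exact hC A b hb

end Pool.Agent.Results.MP_d4938b_nt.CyclicCoversWA
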