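import Pool.Agent.D0H46.CW.Cld
import Pool.Agent.D0H58.CW.Clc
import Pool.Agent.D0H46.CB.Mom
import Pool.Agent.D0H46.CB.Gd
import Pool.Agent.D0H6.CB.Cm
import Pool.Agent.D0H21.CB.Good
import Pool.Agent.D0H22.CB.Cos
import Pool.Agent.D0H22.CB.Tp
import Pool.Agent.D0H62.CB.Div
import Pool.Agent.D0H65.CB.Tail
import Pool.Agent.D0H65.CY.Tail3
import Pool.Agent.D0H65.CY.Ts3
import Pool.Agent.D0H46.CW.Clf
import Pool.Agent.D0H65.CY.PosF
import Pool.Agent.D0H75.CW.Extw
import Pool.Agent.D0H8.CW.Excw
import Pool.Agent.D0H49.CW.Allw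
import Pool.Agent.D0H49.CW.Upw
import Pool.Agent.D0H49.CW.Low
import Pool.Agent.D0H56.CW.Apf
import Pool.Agent.D0H56.CW.Api

/-!
# Least rational points and weak approximation for 100% of the everywhere locally soluble del Pezzo
# surfaces of degree two and cyclic cubic surfaces over `F_q(t)` (helper46; modules by helper6, helper8,
# helper21, helper22, helper49, helper50, helper56, helper58, helper62, helper65 and helper75)

Let `F` be a finite field. We consider the surfaces `z ^ 2 = f(x_0, x_1, x_2)`, `f` a form of degree `4` over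
`F(t)` (`F` of odd characteristic; del Pezzo surfaces of degree two if `f` is nonsingular) and
`z ^ 3 = f(x_0, x_1, x_2)`, `f` a form of degree `3` (`3 ≠ 0` in `F`; cubic surfaces if `f` is nonsingular).
With the quadric surfaces these are all the cyclic covers of the plane which are del Pezzo surfaces
(`z ^ m = f(x)`, `deg f = m κ`, `κ (m - 1) ≤ 2`).

Theorem: consider the forms `f` with coefficients in `F[t]` of degree `< A`, `A → ∞`, for which the equation
has solutions with `x ≠ 0` in all completions of `F(t)`.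

* For 100% of them there is a solution `(x, z)` in polynomials with `x ≠ 0` and
`m deg x_i ≤ (m - 1) A + O(1)`; and the solutions of this size approximate all the families of local
solutions at the places of any given finite set and at infinity, at any given precision. So 100% of these
surfaces satisfy the Hasse principle, and weak approximation at any given finite set of places and at any
given precision, with an effective height.

* For 100% of them the least degree of `x` in a solution is `A / 2 + O(1)` for the quartic forms (`m = 2`)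
and `2 A / 3 + O(1)` for the cubic forms (`m = 3`).

This is the case `n = 2` of the cyclic covers of `P^n` in `MP_d4938b_nt.CyclicCoversWA`, `n ≥ 3`. The second
moment method used there (and for hypersurfaces in the library `Y716.FF`, in at least four variables) is
at its critical point in three variables: a pair of vectors `x, x'` in three variables whose minors have
the greatest common divisor `g` has the weight `1 / |g|` in the second moment, and the sum over the `g`
diverges. Here we use that for such a pair `x' ≡ λ x` modulo `g`, so the roots satisfy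
`z' ^ m ≡ (λ ^ κ z) ^ m` modulo `g`. For `m = 2` this gives `g = g₁ g₂` with `z' ≡ λ ^ 2 z` modulo `g₁` and
`z' ≡ - λ ^ 2 z` modulo `g₂`, and for each factorization there are `|g|` times fewer pairs `(z, z')` than in
general. For `m = 3` a divisor of `g` over the constant field extension `F(ζ)`, `ζ` a primitive cube root of
unity, of degree `≥ deg g / 3` divides `z' - ζ ^ i λ z` for some `i`, and there are few such divisors: the
prime factors of `g` are small primes, for which the local conditions give `z' ≡ λ z`, or large, and then there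
are few of them. There is a similar condition at infinity if the minors have small degree. With these
savings the contribution of the pairs with a large `g` is negligible, and the contributions of the `g` which
are prime to the small primes sum up to a factor `1 + o(1)`.
-/

set_option autoImplicit false

namespace Pool.Agent.Results.MP_d4938b_nt.DelPezzoCoversWA

open Polynomial IsDedekindDomain

/-- The forms of degree `d` in `n + 1` variables over `F[t]` all of whose coefficients have degree less
than `A`. -/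
def Forms (F : Type*) [Field F] (n d A : ℕ) : Set (MvPolynomial (Fin (n + 1)) F[X]) :=
  {f | f.IsHomogeneous d ∧ ∀ c, (f.coeff c).degree < A}

/-- The embedding of `F[t]` in the completion `F((u))`, `u = 1 / t`, of `F(t)` at infinity:
`t` goes to the inverse of `u`. -/
noncomputable def toInfty (F : Type*) [Field F] : F[X] →+* LaurentSeries F :=
  (Polynomial.aeval (HahnSeries.single (-1 : ℤ) (1 : F)) : F[X] →ₐ[F] LaurentSeries F).toRingHom

/-- `(y, w)` is a solution of `w ^ m = f(y)` with `y ≠ 0` over the completion of `F(t)` at `v`. -/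
def SolAt {F : Type*} [Field F] {n : ℕ} (m : ℕ) (f : MvPolynomial (Fin (n + 1)) F[X])
    (v : HeightOneSpectrum F[X]) (y : Fin (n + 1) → v.adicCompletion (RatFunc F))
    (w : v.adicCompletion (RatFunc F)) : Prop :=
  y ≠ 0 ∧ w ^ m = MvPolynomial.aeval y f

/-- `(y, w)` is a solution of `w ^ m = f(y)` with `y ≠ 0` over the completion of `F(t)` at infinity. -/
def SolAtInfty {F : Type*} [Field F] {n : ℕ} (m : ℕ) (f : MvPolynomial (Fin (n + 1)) F[X])
    (y : Fin (n + 1) → LaurentSeries F) (w : LaurentSeries F) : Prop :=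
  y ≠ 0 ∧ w ^ m = MvPolynomial.eval₂ (toInfty F) y f

/-- The forms `f` of degree `m κ` in `n + 1` variables with coefficients in `F[t]` of degree less than `A`
such that `z ^ m = f(x)` has a solution with `x ≠ 0` over the completion of `F(t)` at every place: at every
maximal ideal `v` of `F[t]`, and at infinity. -/
def ELS (F : Type*) [Field F] (n m κ A : ℕ) : Set (MvPolynomial (Fin (n + 1)) F[X]) :=
  {f ∈ Forms F n (m * κ) A | (∀ v, ∃ y w, SolAt m f v y w) ∧ ∃ y w, SolAtInfty m f y w}

/-- The equation `z ^ m = f(x)` has a solution in polynomials with `x ≠ 0` and `deg x_i ≤ b` for all `i`. -/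
def SolutionUpTo {F : Type*} [Field F] {n : ℕ} (m b : ℕ)
    (f : MvPolynomial (Fin (n + 1)) F[X]) : Prop :=
  ∃ (x : Fin (n + 1) → F[X]) (z : F[X]), x ≠ 0 ∧ (∀ i, (x i).natDegree ≤ b) ∧
    z ^ m = MvPolynomial.eval x f

/-- `a ≡ b` modulo the `E`-th power of the maximal ideal of the valuation ring of the completion at `v`. -/
def Near {F : Type*} [Field F] (v : HeightOneSpectrum F[X]) (E : ℕ) (a : F[X])
    (b : v.adicCompletion (RatFunc F)) : Prop :=
  Valued.v (algebraMap F[X] (v.adicCompletion (RatFunc F)) a - b) ≤ WithZero.exp (-(E : ℤ))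

/-- The point `(x, z)` over `F[t]` is close, to the precision `E`, to the point with the weighted
homogeneous coordinates `(y, w)` over the completion at `v` (`w` has the weight `κ`): for some `c` the vector
`c y` has coordinates in the valuation ring, one of them being `1`, and `x ≡ c y`, `z ≡ c ^ κ w` modulo the
`E`-th power of the maximal ideal. -/
def CloseAt {F : Type*} [Field F] {n : ℕ} (κ : ℕ) (v : HeightOneSpectrum F[X]) (E : ℕ)
    (y : Fin (n + 1) → v.adicCompletion (RatFunc F)) (w : v.adicCompletion (RatFunc F))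
    (x : Fin (n + 1) → F[X]) (z : F[X]) : Prop :=
  ∃ c : v.adicCompletion (RatFunc F), (∀ i, Valued.v (c * y i) ≤ 1) ∧ (∃ i, c * y i = 1) ∧
    (∀ i, Near v E (x i) (c * y i)) ∧ Near v E z (c ^ κ * w)

/-- `a ≡ b` modulo `u ^ k` over the completion at infinity. -/
def NearInfty {F : Type*} [Field F] (k : ℤ) (a : F[X]) (b : LaurentSeries F) : Prop :=
  ∀ j : ℤ, j < k → (toInfty F a - b).coeff j = 0

/-- The point `(x, z)` over `F[t]` is close, to the precision `E`, to the point with the weighted
homogeneous coordinates `(y, w)` over the completion at infinity: if `b` is the maximum of the degrees of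
the coordinates of `x`, then for some `c` we have `x ≡ c y` modulo `u ^ (E - b)` and `z ≡ c ^ κ w` modulo
`u ^ (E - a - κ b)`. (So `x` is compared with `t ^ b` and `z` with `t ^ (a + κ b)`; for `z ^ m = f(x)`, where `f`
has coefficients of degree `≤ N` and `a` is the integral part of `N / m`, `deg z` is at most `a + κ b`.) -/
def CloseAtInfty {F : Type*} [Field F] {n : ℕ} (κ a E : ℕ) (y : Fin (n + 1) → LaurentSeries F)
    (w : LaurentSeries F) (x : Fin (n + 1) → F[X]) (z : F[X]) : Prop :=
  ∃ b : ℕ, (∀ i, (x i).natDegree ≤ b) ∧ (∃ i, (x i).degree = b) ∧ ∃ c : LaurentSeries F,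
    (∀ i, NearInfty (E - b) (x i) (c * y i)) ∧ NearInfty (E - a - κ * b) z (c ^ κ * w)

/-- For all choices of a solution `(y v, w v)` over the completion at each place `v` of the finite set `T`
and of a solution `(y', w')` over the completion at infinity there is a solution `(x, z)`, `x ≠ 0`, of
`z ^ m = f(x)` in polynomials with `k * deg (x_i) ≤ M` for all `i` which is close to all of these local
solutions, to the precision `E`. -/
def Approximable {F : Type*} [Field F] {n : ℕ} (m κ k M a : ℕ) (T : Finset (HeightOneSpectrum F[X]))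
    (E : ℕ) (f : MvPolynomial (Fin (n + 1)) F[X]) : Prop :=
  ∀ (y : (v : HeightOneSpectrum F[X]) → Fin (n + 1) → v.adicCompletion (RatFunc F))
    (w : (v : HeightOneSpectrum F[X]) → v.adicCompletion (RatFunc F)),
    (∀ v ∈ T, SolAt m f v (y v) (w v)) → ∀ y' w', SolAtInfty m f y' w' →
    ∃ (x : Fin (n + 1) → F[X]) (z : F[X]), x ≠ 0 ∧ z ^ m = MvPolynomial.eval x f ∧
      (∀ i, k * (x i).natDegree ≤ M) ∧ (∀ v ∈ T, CloseAt κ v E (y v) (w v) x z) ∧
      CloseAtInfty κ a E y' w' x z

open Pool.Agent.D0H46.CW in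
/-- **Least points and weak approximation for 100% of the del Pezzo surfaces of degree two
`z ^ 2 = f_4(x_0, x_1, x_2)` and of the cyclic cubic surfaces `z ^ 3 = f_3(x_0, x_1, x_2)` over `F_q(t)`.**

Let `F` be a finite field, `(m, κ) = (2, 2)` or `(3, 1)`, and `m ≠ 0` in `F`.

1. For every finite set `T` of finite places, every precision `E` and every `ε > 0` there is a `C` such
that for all large `A`, for all but a proportion of at most `ε` of the forms `f` of degree `m κ` in three
variables with coefficients of degree `< A` for which `z ^ m = f(x)` is everywhere locally soluble, all local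
solutions at the places of `T` and at infinity are simultaneously approximated, to the precision `E`, by a
solution `(x, z)` in polynomials with `deg x ≤ ((m - 1) A + C) / m`.

2. For every `ε > 0` there is a `C` such that, if `m b + C ≤ (m - 1) A`, at most a proportion of `ε` of these
forms `f` has a solution `(x, z)`, `x ≠ 0`, `deg x ≤ b`. -/
theorem result (F : Type*) [Field F] [Finite F] (m κ : ℕ)
    (hmκ : (m = 2 ∧ κ = 2) ∨ (m = 3 ∧ κ = 1)) (hm0 : (m : F) ≠ 0) :
    (∀ (T : Finset (HeightOneSpectrum F[X])) (E : ℕ) (ε : ℝ), 0 < ε →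
      ∃ C : ℕ, ∀ᶠ A : ℕ in Filter.atTop,
        ({f ∈ ELS F 2 m κ A | ¬ Approximable m κ m ((m - 1) * A + C) ((A - 1) / m) T E f}.ncard : ℝ) ≤
          ε * (ELS F 2 m κ A).ncard) ∧
    (∀ ε : ℝ, 0 < ε → ∃ C : ℕ, ∀ A b : ℕ, m * b + C ≤ (m - 1) * A →
        ({f ∈ ELS F 2 m κ A | SolutionUpTo m b f}.ncard : ℝ) ≤ ε * (ELS F 2 m κ A).ncard) := by
  have hcard : Fintype.card (Fin (2 + 1)) = 3 := Fintype.card_fin _
  have hm : 2 ≤ m := by omega
  obtain ⟨e, he, hCL, hj⟩ : ∃ e, e + 2 = m * κ ∧ CLW F (Fin (2 + 1)) e m m ∧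
      m = m * (Fintype.card (Fin (2 + 1)) - κ * (m - 1)) := by
    rcases hmκ with ⟨rfl, rfl⟩ | ⟨rfl, rfl⟩
    · refine ⟨2, by norm_num, ?_, by rw [hcard]⟩
      exact t_CLD Pool.Agent.D0H65.CY.t_TAIL3 Pool.Agent.D0H65.CY.t_TS3 F (Fin (2 + 1))
        (by exact_mod_cast hm0) hcard
    · refine ⟨1, by norm_num, ?_, by rw [hcard]⟩
      have hTP := Pool.Agent.D0H22.CB.t_TP Pool.Agent.D0H62.CB.t_DIV Pool.Agent.D0H22.CB.t_COS
        Pool.Agent.D0H22.CB.t_SPL
      have hGOOD := Pool.Agent.D0H21.CB.t_GOOD Pool.Agent.D0H62.CB.t_DIV Pool.Agent.D0H22.CB.t_SPL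
        (Pool.Agent.D0H46.CB.t_GD Pool.Agent.D0H22.CB.t_COS)
      have hMOM := Pool.Agent.D0H46.CB.t_MOM Pool.Agent.D0H6.CB.t_CMF Pool.Agent.D0H6.CB.t_CMI
        Pool.Agent.D0H6.CB.t_CMS hTP hGOOD Pool.Agent.D0H65.CB.t_TAIL
      exact Pool.Agent.D0H58.CW.t_CLC hMOM Pool.Agent.D0H65.CY.t_TS3 F (Fin (2 + 1))
        (by exact_mod_cast hm0) hcard
  have hFano : κ * (m - 1) + 1 ≤ Fintype.card (Fin (2 + 1)) := by
    rcases hmκ with ⟨rfl, rfl⟩ | ⟨rfl, rfl⟩ <;> rw [hcard]
  have hpos : ∃ a b : ℕ, Pool.Agent.D0H46.CY.POSf F (Fin (2 + 1)) a b e m :=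
    ⟨m, m, Pool.Agent.D0H65.CY.t_POSF F (Fin (2 + 1)) m m e m hm (by rw [hcard]; norm_num)
      (t_CLF F (Fin (2 + 1)) e m m hm hCL)⟩
  have hALL := Pool.Agent.D0H49.CW.t_ALLW
    (Pool.Agent.D0H8.CW.t_EXCW Pool.Agent.D0H75.CW.t_EXTW)
  have hELS : ∀ A, ELS F 2 m κ A = {f | Pool.Agent.Y716.FF.IsForm (e + 2) A f ∧
      Pool.Agent.D0H46.CY.ELSC m f} := fun A => by rw [he]; rfl
  have hsub : ∀ (A : ℕ) (Q : MvPolynomial (Fin (2 + 1)) F[X] → Prop), {f ∈ ELS F 2 m κ A | Q f} =
      {f | Pool.Agent.Y716.FF.IsForm (e + 2) A f ∧ (Pool.Agent.D0H46.CY.ELSC m f ∧ Q f)} := by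
    intro A Q
    rw [hELS]
    ext f
    exact and_assoc
  have hiff : ∀ (k M a : ℕ) (T : Finset (HeightOneSpectrum F[X])) (E : ℕ)
      (f : MvPolynomial (Fin (2 + 1)) F[X]),
      Approximable m κ k M a T E f ↔ ApproxC m κ k M a T E f := fun k M a T E f =>
    ⟨fun h y w hy y' w' h1 h2 => h y w hy y' w' ⟨h1, h2⟩,
      fun h y w hy y' w' hs => h y w hy y' w' hs.1 hs.2⟩
  refine ⟨fun T E ε hε => ?_, fun ε hε => ?_⟩
  · obtain ⟨C, hC⟩ := Pool.Agent.D0H49.CW.t_UPW hALL Pool.Agent.D0H56.CW.t_APF
      Pool.Agent.D0H56.CW.t_API F (Fin (2 + 1)) e m κ m he hm hCL hpos T E ε hε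
    refine ⟨C, hC.mono fun A hA => ?_⟩
    rw [hsub, hELS]
    simp only [hiff]
    exact hA
  · obtain ⟨C, hC⟩ := Pool.Agent.D0H49.CW.t_LOW F (Fin (2 + 1)) e m κ m he hm hFano hj hpos ε hε
    refine ⟨C, fun A b hb => ?_⟩
    rw [hsub, hELS]
    exact hC A b hb

end Pool.Agent.Results.MP_d4938b_nt.DelPezzoCoversWA
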