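import Pool.Agent.D0H71.FP.Loc

/-!
# Least rational points and weak approximation for 100% of the everywhere locally soluble Fano
# hypersurfaces over `F_q(t)` (helper71)

Let `F` be a finite field, `n ≥ 3` and `2 ≤ d ≤ n`. We consider the forms `f` of degree `d` in the `n + 1`
variables `x_0, …, x_n` with coefficients in `F[t]` of degree `< A`, for `A → ∞`.

It was known that the Hasse principle holds for 100% of them (`MP_d4938b_nt.RandomFanoFunctionField`; the
proof gave no information on the size or on the position of the rational point). Here we prove:

* for 100% of the everywhere locally soluble forms the least degree of a nonzero zero in `F[t]^(n+1)` is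
  `A / (n + 1 - d) + O(1)`; this holds with all but a proportion of at most `ε` of them, and with a
  constant in `O(1)` that depends on `ε` (and on `F`, `n`, `d`);
* the zeros of this size approximate all the families of local zeros at the places of any given finite
  set and at infinity, at any given precision. So 100% of the hypersurfaces satisfy weak approximation
  at any given finite set of places and at any given precision, with an effective height.

Proof. The upper bound. Let `S` be a power of a product of primes, and let `x₀` be a vector modulo `S` at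
which `f` vanishes modulo a high power of the primes while some derivative is not divisible by a high
power; let `y₀` be an analogous vector at infinity. The number of `x ∈ F[t]^(n+1)` of degree exactly `B`
close to `x₀` and `y₀` is `≍ q^((n+1) B)`; the second moment of the number of zeros `f(x) = 0` among
those, over a class of forms modulo a power of `S` and with given leading coefficients, is computed as in
the library `Y716.FF` (a theorem for all `A`), but with the sharp size `(n + 1 - d) B = A + C`; the
variance is `≤ ε` times the square of the mean if `C` is large. So all but a proportion of `ε` of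
the forms of each class have such a zero, for each of the finitely many pairs `(x₀, y₀)`. The forms which
are not stable in the above sense are rare, uniformly in `A`. The lower bound is a first moment. There
are `≍ q^((n+1) b)` vectors of degree `≤ b`; for a primitive vector `x` of degree `b'` the values `f(x)` for
`f` in the family are equidistributed among the polynomials of degree `< A + d b'`.
-/

set_option autoImplicit false

namespace Pool.Agent.Results.MP_d4938b_nt.LeastPointsWeakApproximation

open Polynomial IsDedekindDomain

/-- The forms of degree `d` in `n + 1` variables over `F[t]` all of whose coefficients have degree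
less than `A`. -/
def Forms (F : Type*) [Field F] (n d A : ℕ) : Set (MvPolynomial (Fin (n + 1)) F[X]) :=
  {f | f.IsHomogeneous d ∧ ∀ m, (f.coeff m).degree < A}

/-- The embedding of `F[t]` in the completion `F((u))`, `u = 1 / t`, of `F(t)` at infinity:
`t` goes to the inverse of `u`. -/
noncomputable def toInfty (F : Type*) [Field F] : F[X] →+* LaurentSeries F :=
  (Polynomial.aeval (HahnSeries.single (-1 : ℤ) (1 : F)) : F[X] →ₐ[F] LaurentSeries F).toRingHom

/-- The form `f` has a nontrivial zero over the completion of `F(t)` at every place: at every
maximal ideal `v` of `F[t]`, and at infinity. -/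
def HasLocalZeros {F : Type*} [Field F] {n : ℕ} (f : MvPolynomial (Fin (n + 1)) F[X]) : Prop :=
  (∀ v : HeightOneSpectrum F[X],
    ∃ x : Fin (n + 1) → v.adicCompletion (RatFunc F), x ≠ 0 ∧ MvPolynomial.aeval x f = 0) ∧
  ∃ x : Fin (n + 1) → LaurentSeries F, x ≠ 0 ∧ MvPolynomial.eval₂ (toInfty F) x f = 0

/-- The form `f` has a nonzero zero in `F[t]^(n+1)` whose coordinates have degree at most `b`. -/
def ZeroUpTo {F : Type*} [Field F] {n : ℕ} (b : ℕ) (f : MvPolynomial (Fin (n + 1)) F[X]) : Prop :=
  ∃ x : Fin (n + 1) → F[X], x ≠ 0 ∧ (∀ i, (x i).natDegree ≤ b) ∧ MvPolynomial.eval x f = 0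

/-- The vector `x` over `F[t]` is close, to the precision `E`, to the projective point with the
coordinates `y` in the completion at `v`: some multiple `c y` has coordinates in the valuation ring,
one of them being `1`, and is congruent to `x` modulo the `E`-th power of the maximal ideal. -/
def CloseAt {F : Type*} [Field F] {n : ℕ} (v : HeightOneSpectrum F[X]) (E : ℕ)
    (y : Fin (n + 1) → v.adicCompletion (RatFunc F)) (x : Fin (n + 1) → F[X]) : Prop :=
  ∃ c : v.adicCompletion (RatFunc F), (∀ i, Valued.v (c * y i) ≤ 1) ∧ (∃ i, c * y i = 1) ∧
    ∀ i, Valued.v (algebraMap F[X] (v.adicCompletion (RatFunc F)) (x i) - c * y i) ≤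
      WithZero.exp (-(E : ℤ))

/-- The vector `x` over `F[t]` is close, to the precision `E`, to the projective point with the
coordinates `y` in the completion at infinity: if `b` is the maximum of the degrees of the coordinates
of `x` (so that `b` is the order of the pole of `x` at infinity), some multiple `c y` satisfies
`x ≡ c y` modulo `u ^ (E - b)`. -/
def CloseAtInfty {F : Type*} [Field F] {n : ℕ} (E : ℕ) (y : Fin (n + 1) → LaurentSeries F)
    (x : Fin (n + 1) → F[X]) : Prop :=
  ∃ b : ℕ, (∀ i, (x i).natDegree ≤ b) ∧ (∃ i, (x i).degree = b) ∧ ∃ c : LaurentSeries F,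
    ∀ i, ∀ m : ℤ, m < E - b → (toInfty F (x i) - c * y i).coeff m = 0

/-- For all choices of a nontrivial local zero of `f` at each place of the finite set `T` and at infinity
there is a nonzero zero `x` of `f` in `F[t]^(n+1)` with `r * deg (x_i) ≤ M` for all `i` which is close to all
of these local zeros, to the precision `E`. -/
def Approximable {F : Type*} [Field F] {n : ℕ} (r M : ℕ) (T : Finset (HeightOneSpectrum F[X]))
    (E : ℕ) (f : MvPolynomial (Fin (n + 1)) F[X]) : Prop :=
  ∀ y : (v : HeightOneSpectrum F[X]) → Fin (n + 1) → v.adicCompletion (RatFunc F),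
    (∀ v ∈ T, y v ≠ 0 ∧ MvPolynomial.aeval (y v) f = 0) →
    ∀ y' : Fin (n + 1) → LaurentSeries F, y' ≠ 0 → MvPolynomial.eval₂ (toInfty F) y' f = 0 →
    ∃ x : Fin (n + 1) → F[X], x ≠ 0 ∧ MvPolynomial.eval x f = 0 ∧
      (∀ i, r * (x i).natDegree ≤ M) ∧ (∀ v ∈ T, CloseAt v E (y v) x) ∧ CloseAtInfty E y' x

/-- **Least points and weak approximation for 100% of the Fano hypersurfaces over `F_q(t)`.**

Let `F` be a finite field, `n ≥ 3` and `2 ≤ d ≤ n`.

1. For every finite set `T` of finite places, every precision `E` and every `ε > 0` there is a `C` such
that for all large `A`, for all but a proportion of at most `ε` of the everywhere locally soluble forms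
`f` of degree `d` in `n + 1` variables with coefficients of degree `< A`, all local zeros of `f` at the
places of `T` and at infinity are simultaneously approximated, to the precision `E`, by a zero
`x ∈ F[t]^(n+1)` of degree at most `(A + C) / (n + 1 - d)`.

2. For every `ε > 0` there is a `C` such that, if `(n + 1 - d) b + C ≤ A`, at most a proportion of `ε` of
these forms has a nonzero zero of degree at most `b`. -/
theorem result (F : Type*) [Field F] [Finite F] (n d : ℕ) (hn : 3 ≤ n) (hd : 2 ≤ d)
    (hdn : d ≤ n) :
    (∀ (T : Finset (HeightOneSpectrum F[X])) (E : ℕ) (ε : ℝ), 0 < ε →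
      ∃ C : ℕ, ∀ᶠ A : ℕ in Filter.atTop,
        (({f ∈ Forms F n d A | HasLocalZeros f ∧
            ¬ Approximable (n + 1 - d) (A + C) T E f} : Set _).ncard : ℝ) ≤
          ε * (({f ∈ Forms F n d A | HasLocalZeros f} : Set _).ncard : ℝ)) ∧
    (∀ ε : ℝ, 0 < ε → ∃ C : ℕ, ∀ A b : ℕ, (n + 1 - d) * b + C ≤ A →
        (({f ∈ Forms F n d A | HasLocalZeros f ∧ ZeroUpTo b f} : Set _).ncard : ℝ) ≤
          ε * (({f ∈ Forms F n d A | HasLocalZeros f} : Set _).ncard : ℝ)) := by
  obtain ⟨e, rfl⟩ : ∃ e, d = e + 2 := ⟨d - 2, by omega⟩
  have he : e + 2 + (n + 1 - (e + 2)) = Fintype.card (Fin (n + 1)) := by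
    rw [Fintype.card_fin]; omega
  have hk : 4 ≤ Fintype.card (Fin (n + 1)) := by
    rw [Fintype.card_fin]; omega
  refine ⟨fun T E ε hε => ?_, fun ε hε => ?_⟩
  · exact Pool.Agent.D0H71.FP.main_approx (F := F) (ι := Fin (n + 1)) e (n + 1 - (e + 2))
      (by omega) he hk T E hε
  · exact Pool.Agent.D0H71.FP.main_lower (F := F) (ι := Fin (n + 1)) e (n + 1 - (e + 2))
      (by omega) he hk hε

end Pool.Agent.Results.MP_d4938b_nt.LeastPointsWeakApproximation
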